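import Pool.Agent.GEN.StmtsV
import Pool.Agent.Helper48_GEN.ERA

/-!
Row ERV of squad GEN: chains over an algebra, the version with an operator in front of `s - s₀`.
-/

set_option autoImplicit false

namespace Pool.Agent.GEN.H99

open MvPolynomial Pool.Agent.Helper6_Mono Pool.Agent.Helper30_Simp.H42

section ERoot

variable {σ : Type} {E B : Type} [CommRing E] [Algebra ℂ E] [AddCommGroup B] [Module ℂ B]
  [Module E B] [IsScalarTower ℂ E B]
variable {act : MvPolynomial σ ℂ →ₐ[ℂ] Module.End E B} {s : E} {d : σ → Module.End E B}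
variable {f : MvPolynomial σ ℂ} {psi : ℕ → B} {N : Submodule E B} {z : σ}

theorem exists_pv
    (leibX : ∀ i, i ≠ z → ∀ j b, d i (act (X j) b) = act (pderiv i (X j)) b + act (X j) (d i b))
    (mul_psi : ∀ n, act f (psi (n + 1)) = psi n)
    (d_psi : ∀ i, i ≠ z → ∀ n : ℕ,
      d i (psi n) = (s - (n : E)) • act (pderiv i f) (psi (n + 1)))
    (w : List σ) (hw : z ∉ w) :
    ∃ Q : Polynomial (MvPolynomial σ ℂ), (∀ t : ℂ, Q.eval (C t) = pw f w (t - 1)) ∧
      (w.map d).prod (psi 0) = evS act s Q (psi w.length) := by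
  induction w with
  | nil =>
    refine ⟨1, fun t => by simp [pw], ?_⟩
    simp
  | cons i w ih =>
    have hi : i ≠ z := fun h => hw (by simp [h])
    obtain ⟨Q, hQ, hN⟩ := ih (fun h => hw (List.mem_cons_of_mem _ h))
    refine ⟨Polynomial.C f * DP i Q + (Polynomial.X - (w.length : Polynomial _)) *
      Polynomial.C (pderiv i f) * Q, fun t => ?_, ?_⟩
    · rw [pw, Polynomial.eval_add, Polynomial.eval_mul, Polynomial.eval_mul, Polynomial.eval_mul,
        Polynomial.eval_C, Polynomial.eval_C, DP_eval, hQ]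
      simp
    · rw [List.map_cons, List.prod_cons, Module.End.mul_apply, hN,
        Pool.Agent.GEN.H48.leibS1 i (leibX i hi), d_psi i hi, List.length_cons]
      have h2 : psi w.length = evS act s (Polynomial.C f) (psi (w.length + 1)) := by
        rw [evS_C, mul_psi]
      have h3 : (s - ((w.length : ℕ) : E)) • act (pderiv i f) (psi (w.length + 1))
          = evS act s ((Polynomial.X - (w.length : Polynomial _)) *
            Polynomial.C (pderiv i f)) (psi (w.length + 1)) := by
        rw [evS_mul, evS_C, map_sub, LinearMap.sub_apply, evS_X, evS_nat, sub_smul]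
      rw [h3, h2, ← evS_mul, ← evS_mul, ← LinearMap.add_apply, ← map_add]
      congr 2
      ring

theorem list_eq {ι : Type*} (l : List ι) (F : ι → Polynomial (MvPolynomial σ ℂ))
    (G : ι → Module.End E B) (x y : B) (h : ∀ i ∈ l, evS act s (F i) x = G i y) :
    evS act s (l.map F).sum x = (l.map G).sum y := by
  induction l with
  | nil => simp
  | cons i l ih =>
    rw [List.map_cons, List.sum_cons, map_add, LinearMap.add_apply, List.map_cons, List.sum_cons,
      LinearMap.add_apply, h i List.mem_cons_self, ih fun j hj => h j (List.mem_cons_of_mem _ hj)]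

theorem rel_memV
    (leibX : ∀ i, i ≠ z → ∀ j b, d i (act (X j) b) = act (pderiv i (X j)) b + act (X j) (d i b))
    (mul_psi : ∀ n, act f (psi (n + 1)) = psi n)
    (d_psi : ∀ i, i ≠ z → ∀ n : ℕ,
      d i (psi n) = (s - (n : E)) • act (pderiv i f) (psi (n + 1)))
    (hact : ∀ i, ∀ b ∈ N, act (X i) b ∈ N)
    (hd : ∀ i, i ≠ z → ∀ b ∈ N, d i b ∈ N) (h0 : act f (psi 0) ∈ N) (hf : f ≠ 0)
    (s₀ : ℂ) (dd : ℕ) (a : ℕ → ℂ)
    (P Q : List (Polynomial (MvPolynomial σ ℂ) × List σ)) (hPz : ∀ aw ∈ P, z ∉ aw.2)
    (hQz : ∀ aw ∈ Q, z ∉ aw.2)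
    (hP : ∀ n : ℕ,
      (∑ e ∈ Finset.range (dd + 1), C (a e) * X z ^ e) * f ^ n =
        C ((n : ℂ) - s₀) *
          (Q.map fun aw => aw.1.eval (n : MvPolynomial σ ℂ) * dWord aw.2 (f ^ n)).sum +
        (P.map fun aw => aw.1.eval (n : MvPolynomial σ ℂ) * dWord aw.2 (f ^ (n + 1))).sum) :
    (∑ e ∈ Finset.range (dd + 1), (algebraMap ℂ E (a e)) • act (X z ^ e) (psi 0)) -
        (s - algebraMap ℂ E s₀) •
          (Q.map fun aw => evS act s aw.1 * (aw.2.map d).prod).sum (psi 0) ∈ N := by
  choose! R hR hN' using fun w hw =>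
    Pool.Agent.GEN.H48.exists_pw1 (N := N) leibX mul_psi d_psi hd h0 w hw
  choose! S hS hS' using fun w hw => exists_pv leibX mul_psi d_psi w hw
  obtain ⟨M, hMP, hMQ⟩ : ∃ M, (∀ aw ∈ P, aw.2.length ≤ M) ∧ ∀ aw ∈ Q, aw.2.length ≤ M := by
    refine ⟨(P.map fun aw => aw.2.length).sum + (Q.map fun aw => aw.2.length).sum,
      fun aw haw => ?_, fun aw haw => ?_⟩
    · have h : aw.2.length ≤ (P.map fun aw => aw.2.length).sum :=
        List.single_le_sum (by simp) _ (List.mem_map_of_mem haw)
      omega
    · have h : aw.2.length ≤ (Q.map fun aw => aw.2.length).sum :=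
        List.single_le_sum (by simp) _ (List.mem_map_of_mem haw)
      omega
  have hpoly : (∑ e ∈ Finset.range (dd + 1),
        Polynomial.C (C (a e)) * Polynomial.C (X z ^ e)) * Polynomial.C (f ^ M) =
      (Polynomial.X - Polynomial.C (C s₀)) *
        (Q.map fun aw => aw.1 * (Polynomial.C (f ^ (M - aw.2.length)) * S aw.2)).sum +
      (P.map fun aw => aw.1 * (Polynomial.C (f ^ (M + 1 - aw.2.length)) * R aw.2)).sum := by
    refine eq_of_natP (M + 1) fun n hn => ?_
    have h1 := hP n
    have h3 : f ^ (n - M) *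
        ((∑ e ∈ Finset.range (dd + 1), C (a e) * X z ^ e) * f ^ M) =
        (∑ e ∈ Finset.range (dd + 1), C (a e) * X z ^ e) * f ^ n := by
      rw [mul_left_comm, ← pow_add, Nat.sub_add_cancel (by omega)]
    have h2 : (∑ e ∈ Finset.range (dd + 1),
        Polynomial.C (C (a e)) * Polynomial.C (X z ^ e)).eval
        (C (n : ℂ)) = ∑ e ∈ Finset.range (dd + 1), C (a e) * X z ^ e := by
      rw [Polynomial.eval_finsetSum]
      refine Finset.sum_congr rfl fun e _ => ?_
      rw [Polynomial.eval_mul, Polynomial.eval_C, Polynomial.eval_C]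
    refine mul_left_cancel₀ (pow_ne_zero (n - M) hf) ?_
    rw [Polynomial.eval_mul, Polynomial.eval_C, h2, h3, h1, Polynomial.eval_add,
      Polynomial.eval_mul, Polynomial.eval_sub, Polynomial.eval_X, Polynomial.eval_C,
      Polynomial.eval_listSum, Polynomial.eval_listSum, List.map_map, List.map_map, mul_add]
    congr 1
    · rw [← C_sub, mul_left_comm (f ^ (n - M)) (C ((n : ℂ) - s₀))
        (List.map (Polynomial.eval (C (n : ℂ)) ∘ _) Q).sum,
        ← List.sum_map_mul_left _ _ (f ^ (n - M))]
      congr 2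
      refine List.map_congr_left fun aw haw => ?_
      have h4 := hMQ aw haw
      obtain ⟨m, rfl⟩ : ∃ m, n = m + 1 := ⟨n - 1, by omega⟩
      rw [Function.comp_apply, dWord_pow f aw.2 m (by omega), show m + 1 - aw.2.length =
        (m + 1 - M) + (M - aw.2.length) by omega, pow_add, Polynomial.eval_mul,
        Polynomial.eval_mul, Polynomial.eval_C, hS aw.2 (hQz aw haw)]
      have h5 : (((m + 1 : ℕ) : ℂ) - 1) = (m : ℂ) := by push_cast; ring
      rw [h5]
      simp only [map_natCast]
      ring
    · rw [← List.sum_map_mul_left]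
      congr 1
      refine List.map_congr_left fun aw haw => ?_
      have h4 := hMP aw haw
      rw [Function.comp_apply, dWord_pow f aw.2 n (by omega), show n + 1 - aw.2.length =
        (n - M) + (M + 1 - aw.2.length) by omega, pow_add, Polynomial.eval_mul,
        Polynomial.eval_mul, Polynomial.eval_C, hR aw.2 (hPz aw haw)]
      simp only [map_natCast]
      ring
  have h5 : evS act s _ (psi M) = evS act s _ (psi M) :=
    congrArg (fun p => evS act s p (psi M)) hpoly
  have h6 := pow_psiE mul_psi M 0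
  rw [zero_add] at h6
  have hC : ∀ (c : ℂ) (y : B), act (C c) y = (algebraMap ℂ E c) • y := by
    intro c y
    have h : act (C c) = algebraMap ℂ _ c := by
      rw [← act.commutes c]; rfl
    rw [h, Module.algebraMap_end_apply, algebraMap_smul]
  have h10 : evS act s (∑ e ∈ Finset.range (dd + 1),
        Polynomial.C (C (a e)) * Polynomial.C (X z ^ e))
      (psi 0) = ∑ e ∈ Finset.range (dd + 1),
        (algebraMap ℂ E (a e)) • act (X z ^ e) (psi 0) := by
    rw [map_sum, LinearMap.sum_apply]
    refine Finset.sum_congr rfl fun e _ => ?_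
    rw [evS_mul, evS_C, evS_C, hC]
  have h11 : evS act s (Q.map fun aw => aw.1 * (Polynomial.C (f ^ (M - aw.2.length)) *
        S aw.2)).sum (psi M) =
      (Q.map fun aw => evS act s aw.1 * (aw.2.map d).prod).sum (psi 0) := by
    refine list_eq Q _ _ _ _ fun aw haw => ?_
    have h7 := hMQ aw haw
    have h9 := pow_psiE mul_psi (M - aw.2.length) aw.2.length
    rw [show aw.2.length + (M - aw.2.length) = M by omega] at h9
    rw [Module.End.mul_apply, hS' aw.2 (hQz aw haw), evS_mul, mul_comm (Polynomial.C _), evS_mul,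
      evS_C, h9]
  rw [evS_mul, evS_C, h6, h10, map_add, LinearMap.add_apply, evS_mul act s (Polynomial.X - _),
    h11, map_sub, LinearMap.sub_apply, evS_X, evS_C, hC, ← sub_smul] at h5
  rw [h5, add_sub_cancel_left]
  refine list_mem P _ _ fun aw haw => ?_
  have h7 := hMP aw haw
  have h8 : Polynomial.C (f ^ (M + 1 - aw.2.length)) * R aw.2 =
      (R aw.2 * Polynomial.C f) * Polynomial.C (f ^ (M - aw.2.length)) := by
    rw [show M + 1 - aw.2.length = (M - aw.2.length) + 1 by omega, pow_succ, map_mul]
    ring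
  have h9 := pow_psiE mul_psi (M - aw.2.length) aw.2.length
  rw [show aw.2.length + (M - aw.2.length) = M by omega] at h9
  rw [h8, evS_mul, evS_mul act s (R aw.2 * _), evS_C, h9]
  exact evS_mem hact _ _ (hN' aw.2 (hPz aw haw))

omit [Algebra ℂ E] [Module ℂ B] [IsScalarTower ℂ E B] in
theorem prod_mem (hd : ∀ i, i ≠ z → ∀ b ∈ N, d i b ∈ N) (w : List σ) (hw : z ∉ w) :
    ∀ b ∈ N, (w.map d).prod b ∈ N := by
  induction w with
  | nil => intro b hb; simpa using hb
  | cons i w ih =>
    intro b hb
    rw [List.map_cons, List.prod_cons, Module.End.mul_apply]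
    exact hd i (fun h => hw (by simp [h])) _ (ih (fun h => hw (List.mem_cons_of_mem _ h)) b hb)

theorem prod_comm
    (leibX : ∀ i, i ≠ z → ∀ j b, d i (act (X j) b) = act (pderiv i (X j)) b + act (X j) (d i b))
    (w : List σ) (hw : z ∉ w) (b : B) :
    (w.map d).prod (act (X z) b) = act (X z) ((w.map d).prod b) := by
  induction w with
  | nil => simp
  | cons i w ih =>
    have hi : i ≠ z := fun h => hw (by simp [h])
    rw [List.map_cons, List.prod_cons, Module.End.mul_apply, Module.End.mul_apply,
      ih (fun h => hw (List.mem_cons_of_mem _ h)), leibX i hi, pderiv_X_of_ne (Ne.symm hi),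
      map_zero, LinearMap.zero_apply, zero_add]

end ERoot

/-- ROW ERV -/
theorem erv : ErvStmt := by
  intro σ _ E B _ _ _ _ _ _ f s z act d leibX psi mul_psi d_psi N hact hd h0 s₀ dd a ha
  obtain ⟨P, Q, hPz, hQz, hP⟩ := ha
  refine ⟨(Q.map fun aw => evS act s aw.1 * (aw.2.map d).prod).sum, ?_, ?_, ?_⟩
  · intro N' hN' hdN' b hb
    clear hP hPz h0
    induction Q with
    | nil => simp
    | cons aw Q ih =>
      rw [List.map_cons, List.sum_cons, LinearMap.add_apply, Module.End.mul_apply]
      exact N'.add_mem (evS_mem hN' _ _ (prod_mem hdN' aw.2 (hQz aw List.mem_cons_self) b hb))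
        (ih fun x hx => hQz x (List.mem_cons_of_mem _ hx))
  · intro b
    clear hP hPz h0
    induction Q with
    | nil => simp
    | cons aw Q ih =>
      rw [List.map_cons, List.sum_cons, LinearMap.add_apply, Module.End.mul_apply,
        LinearMap.add_apply, Module.End.mul_apply,
        ih fun x hx => hQz x (List.mem_cons_of_mem _ hx),
        prod_comm leibX aw.2 (hQz aw List.mem_cons_self), map_add]
      congr 1
      rw [← evS_C act s (X z), ← evS_mul, ← evS_mul, mul_comm]
  · rcases eq_or_ne f 0 with rfl | hf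
    · have h1 := mul_psi 0
      rw [map_zero, LinearMap.zero_apply] at h1
      rw [← h1]
      simp only [map_zero, smul_zero, Finset.sum_const_zero, sub_zero]
      exact N.zero_mem
    · exact rel_memV leibX mul_psi d_psi hact hd h0 hf s₀ dd a P Q hPz hQz hP

end Pool.Agent.GEN.H99
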